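import Mathlib
import Pool.Agent.H525.EX.Stm4
import Pool.Agent.H139.EX.LOC

/-!
# Project EX (helper525), LOC2: the local derivative of the even rows (helper142)
-/

namespace Pool.Agent.H142.EX

open Polynomial
open Pool.Agent.H525.EX

theorem t_loc2 : S_loc2 := by
  intro ε Q _ hS a
  have h1 : du (ca ε Q⁻¹).1 (a : ℤ) = -dv (ca ε Q⁻¹).1 (a : ℤ) := by
    unfold du dv
    rw [neg_neg]
  have h2 : (a : ℝ) * sm (ca ε Q⁻¹).1 (a : ℤ) = 0 := by
    rw [hS.N]
    split_ifs with h
    · have h3 : a = 0 := by exact_mod_cast h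
      rw [h3, Nat.cast_zero, zero_mul]
    · rw [mul_zero]
  rw [Pool.Agent.H139.EX.H_even, Pool.Agent.H139.EX.der_Hp, h1, h2, add_zero]

end Pool.Agent.H142.EX
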